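import Pool.Agent.Helper60.HC.GoalsP
import Pool.Agent.Helper19.PM.GoalsS
import Pool.Agent.Helper29.BL.PS

/-!
# Project TN (MP_a41896_nt), packet EMS: at most one free coordinate, the fibre is empty
-/

set_option autoImplicit false

open MvPolynomial

namespace Pool.Agent.Helper52.PM

open WeierstrassCurve Height Height.AdmissibleAbsValues
open Pool.Agent.Helper29.BL Pool.Agent.Helper42.SG
open Pool.Agent.Helper5.UN (cH)

noncomputable section

theorem t_EMS (h : Pool.Agent.Helper60.HC.S_ELOC2) (hev : Pool.Agent.Helper19.PM.HEV) :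
    Pool.Agent.Helper19.PM.EMS := by
  intro K _ _ σ _ _ s D ι _ f hf hc S hS
  obtain ⟨E, B, hE, hB, hP⟩ := h K σ s D ι f hf hc
  obtain ⟨P, hP0, -, hPJ, hPv⟩ := hP S hS
  obtain ⟨C1, hC1, hC1'⟩ := hev K σ S P hPJ
  have hB0 : 0 ≤ PS (fun v => Real.log (B v)) :=
    PS_nonneg hB.fin fun v => Real.log_nonneg (hB.one_le v)
  refine ⟨P, PS (fun v => Real.log (B v)) + E + C1, hP0, by positivity, fun x hx => ?_⟩
  obtain ⟨a, ha⟩ : ∃ a, a = eval x P := ⟨_, rfl⟩
  have ha0 : a ≠ 0 := by rw [ha]; exact hx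
  have hFS1 : FS (fun v => (E : ℝ) * ∑ i ∈ S, Real.log (Mv v (x i))) :=
    (FS.sum S fun i _ => FS_log_Mv (x i)).const_mul _
  have hF1 : FS (fun v => Real.log (B v) + (E : ℝ) * ∑ i ∈ S, Real.log (Mv v (x i))) :=
    hB.fin.add hFS1
  have hFg : FS (fun v => Real.log (B v) + (E : ℝ) * ∑ i ∈ S, Real.log (Mv v (x i)) +
      Real.posLog (v a⁻¹)) := hF1.add (FS_posLog _)
  have hb : ∀ v : AbsoluteValue K ℝ,
      Real.posLog ((∏ i, Mv v (x i)) ^ D / ⨆ j, v (eval x (f j))) ≤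
        Real.log (B v) + (E : ℝ) * ∑ i ∈ S, Real.log (Mv v (x i)) + Real.posLog (v a⁻¹) := by
    intro v
    have h1 := hPv v x
    rw [← ha] at h1
    have hA : 0 < (∏ i, Mv v (x i)) ^ D :=
      pow_pos (Finset.prod_pos fun i _ => Mv_pos v (x i)) D
    have hQ1' : 1 ≤ ∏ i ∈ S, Mv v (x i) := by
      have h0 := Finset.prod_le_prod (s := S) (f := fun _ => (1 : ℝ)) (g := fun i => Mv v (x i))
        (fun _ _ => zero_le_one) (fun i _ => one_le_Mv v (x i))
      simpa using h0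
    have hQ1 : 1 ≤ (∏ i ∈ S, Mv v (x i)) ^ E := one_le_pow₀ hQ1'
    obtain ⟨Q, hQ⟩ : ∃ Q, Q = B v * (∏ i ∈ S, Mv v (x i)) ^ E := ⟨_, rfl⟩
    rw [← hQ] at h1
    have hQ0 : 1 ≤ Q := by
      rw [hQ]
      exact one_le_mul_of_one_le_of_one_le (hB.one_le v) hQ1
    have hQp : 0 < Q := lt_of_lt_of_le one_pos hQ0
    have hva : 0 < v a := v.pos ha0
    have hSp : 0 < ⨆ j, v (eval x (f j)) := by
      by_contra hn
      push Not at hn
      have h2 : 0 < v a * (∏ i, Mv v (x i)) ^ D := mul_pos hva hA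
      have h3 : Q * (⨆ j, v (eval x (f j))) ≤ 0 := mul_nonpos_of_nonneg_of_nonpos hQp.le hn
      linarith
    have h4 : (∏ i, Mv v (x i)) ^ D / (⨆ j, v (eval x (f j))) ≤ Q * v a⁻¹ := by
      rw [map_inv₀, div_le_iff₀ hSp]
      have : Q * (v a)⁻¹ * (⨆ j, v (eval x (f j))) =
          (Q * ⨆ j, v (eval x (f j))) / v a := by
        field_simp
      rw [this, le_div_iff₀ hva, mul_comm]
      exact h1
    have h5 : Real.log Q = Real.log (B v) + (E : ℝ) * ∑ i ∈ S, Real.log (Mv v (x i)) := by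
      rw [hQ, Real.log_mul (lt_of_lt_of_le one_pos (hB.one_le v)).ne' (by positivity),
        Real.log_pow, Real.log_prod fun i _ => (Mv_pos v (x i)).ne']
    calc Real.posLog ((∏ i, Mv v (x i)) ^ D / ⨆ j, v (eval x (f j)))
        ≤ Real.posLog (Q * v a⁻¹) := Real.posLog_le_posLog (div_nonneg hA.le hSp.le) h4
      _ ≤ Real.posLog Q + Real.posLog (v a⁻¹) := Real.posLog_mul
      _ = Real.log (B v) + (E : ℝ) * ∑ i ∈ S, Real.log (Mv v (x i)) + Real.posLog (v a⁻¹) := by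
        rw [Real.posLog, max_eq_right (Real.log_nonneg hQ0), h5]
  have hFp : FS (fun v => Real.posLog ((∏ i, Mv v (x i)) ^ D / ⨆ j, v (eval x (f j)))) := by
    refine hFg.mono fun v _ h => ?_
    exact le_antisymm ((hb v).trans h.le) Real.posLog_nonneg
  have h6 := PS_mono hFp hFg hb
  have h7 : PS (fun v => Real.log (B v) + (E : ℝ) * ∑ i ∈ S, Real.log (Mv v (x i)) +
      Real.posLog (v a⁻¹)) = PS (fun v => Real.log (B v)) + E * ∑ i ∈ S, logHeight₁ (x i) +
      logHeight₁ a := by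
    rw [PS_add hF1 (FS_posLog _), PS_add hB.fin hFS1, PS_const_mul,
      PS_sum S fun i _ => FS_log_Mv (x i), PS_posLog, logHeight₁_inv]
    congr 3
    exact Finset.sum_congr rfl fun i _ => PS_log_Mv (x i)
  have h8 := hC1' x
  rw [← ha] at h8
  have h9 : 0 ≤ ∑ i ∈ S, logHeight₁ (x i) :=
    Finset.sum_nonneg fun i _ => zero_le_logHeight₁ (x i)
  unfold cH
  refine h6.trans ?_
  rw [h7]
  have hE0 : (0 : ℝ) ≤ E := Nat.cast_nonneg E
  nlinarith [mul_nonneg hB0 h9, mul_nonneg hE0 h9, mul_nonneg hC1 h9]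

end

end Pool.Agent.Helper52.PM
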